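import Pool.Agent.W186.DX.Main
import Pool.Agent.W125.SD.SUnit
import Pool.Agent.W347.SD.SB2
import Pool.Agent.W186.SD.CntD

set_option autoImplicit false

/-! # Zeros of the derivatives of xi in windows -/

namespace Pool.Agent.R305.DH

open Complex Filter Topology Set
open Pool.Agent.H24R2.JP (XX HH Om)
open Pool.Agent.H986R2.K4 (xi)
open Pool.Agent.H986R2.K4.XiAux
open Pool.Agent.W186.SD.Cnt (num order_eq one_le_order num_eq num_mono)

/-- Zeros of the `n`-th derivative of `ξ` with real part at least `σ` and imaginary part in `(a, b]`. -/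
def Zr (n : ℕ) (σ a b : ℝ) : Set ℂ :=
  {s | iteratedDeriv n xi s = 0 ∧ σ ≤ s.re ∧ a < s.im ∧ s.im ≤ b}

theorem unit : Pool.Agent.H24R2.DZ.SUnit := Pool.Agent.W125.SD.sunit Pool.Agent.W347.SD.sb2

/-- unit windows for `xi` -/
theorem unit_xi (n : ℕ) : ∃ C T0 : ℝ, 0 < C ∧ 3 ≤ T0 ∧ ∀ t : ℝ, T0 ≤ t →
    ∀ S : Finset ℂ, (∀ s ∈ S, |s.im - t| ≤ 1 ∧ iteratedDeriv n xi s = 0) →
      ∑ s ∈ S, (analyticOrderNatAt (iteratedDeriv n xi) s : ℝ) ≤ C * Real.log t := by
  obtain ⟨C, T0, hC, hT0, h⟩ := unit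
  refine ⟨C, max (max T0 3) (Real.exp n), hC, (le_max_right _ _).trans (le_max_left _ _), ?_⟩
  intro t ht S hS
  have g1 : T0 ≤ t := (le_max_left _ _).trans ((le_max_left _ _).trans ht)
  have g2 : 3 ≤ t := (le_max_right _ _).trans ((le_max_left _ _).trans ht)
  have g3 : Real.exp n ≤ t := (le_max_right _ _).trans ht
  have g4 : (n : ℝ) ≤ Real.log t := by
    rw [Real.le_log_iff_exp_le (by linarith)]
    exact g3
  have g5 : 0 ≤ Real.log t := Real.log_nonneg (by linarith)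
  have h1 := h t n g1 (by linarith) (S.image (fun s => s - 1 / 2)) (by
    intro s hs
    obtain ⟨z, hz, rfl⟩ := Finset.mem_image.1 hs
    obtain ⟨h2, h3⟩ := hS z hz
    refine ⟨?_, (zero_iff n z).1 h3⟩
    rw [half_im]
    exact h2)
  rw [Finset.sum_image (by intro a _ b _ hab; simpa using hab)] at h1
  refine le_trans (le_of_eq ?_) h1
  exact Finset.sum_congr rfl fun s _ => by rw [order_eq]

theorem Zr_fin (n : ℕ) (σ a b : ℝ) : (Zr n σ a b).Finite := by
  have h := Pool.Agent.W186.DX.F_fin n (-(1 / 2)) (1 / 2) (|a| + |b|)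
  refine (h.image (fun s => s + 1 / 2)).subset ?_
  rintro s ⟨h1, h2, h3, h4⟩
  have h5 := Pool.Agent.W186.DX.F_half ((Pool.Agent.W186.DX.F_xi n s).1 h1)
  refine ⟨s - 1 / 2, ⟨(abs_le.1 h5).1, (abs_le.1 h5).2, ?_, (Pool.Agent.W186.DX.F_xi n s).1 h1⟩, by ring⟩
  rw [half_im, abs_le]
  constructor
  · have := neg_abs_le a
    have := abs_nonneg b
    linarith
  · have := le_abs_self b
    have := abs_nonneg a
    linarith

/-- zeros in a window around `c`, with ordinates in `[T0, b]` -/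
theorem window (n : ℕ) : ∃ C T0 : ℝ, 0 < C ∧ 3 ≤ T0 ∧ ∀ c L b : ℝ, 0 ≤ L → T0 ≤ b →
    ∀ S : Finset ℂ, (∀ s ∈ S, |s.im - c| ≤ L ∧ T0 ≤ s.im ∧ s.im ≤ b ∧ iteratedDeriv n xi s = 0) →
      ∑ s ∈ S, (analyticOrderNatAt (iteratedDeriv n xi) s : ℝ) ≤
        C * (L + 1) * Real.log b := by
  classical
  obtain ⟨C, T0, hC, hT0, h⟩ := unit_xi n
  refine ⟨2 * C, T0 + 1, by positivity, by linarith, ?_⟩
  intro c L b hL hb S hS
  have hlog : 0 ≤ Real.log b := Real.log_nonneg (by linarith)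
  set g : ℂ → ℤ := fun s => ⌊s.im⌋ with hg
  have hmap : ∀ s ∈ S, g s ∈ Finset.Icc ⌊c - L⌋ ⌊c + L⌋ := by
    intro s hs
    have h1 := abs_le.1 (hS s hs).1
    rw [Finset.mem_Icc]
    exact ⟨Int.floor_le_floor (by linarith), Int.floor_le_floor (by linarith)⟩
  rw [← Finset.sum_fiberwise_of_maps_to hmap]
  have h2 : ∀ k ∈ Finset.Icc ⌊c - L⌋ ⌊c + L⌋, ∑ s ∈ S with g s = k,
      (analyticOrderNatAt (iteratedDeriv n xi) s : ℝ) ≤ C * Real.log b := by
    intro k _
    by_cases hne : (S.filter (fun s => g s = k)).Nonempty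
    · obtain ⟨s0, hs0⟩ := hne
      rw [Finset.mem_filter] at hs0
      obtain ⟨-, h3, h4, -⟩ := hS s0 hs0.1
      have h7 := Int.floor_le s0.im
      have h8 := Int.lt_floor_add_one s0.im
      have h9 : ((⌊s0.im⌋ : ℤ) : ℝ) = k := by exact_mod_cast hs0.2
      rw [h9] at h7 h8
      have h6 := h k (by linarith) (S.filter (fun s => g s = k)) (by
        intro s hs
        rw [Finset.mem_filter] at hs
        refine ⟨?_, (hS s hs.1).2.2.2⟩
        have h7 := Int.floor_le s.im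
        have h8 := Int.lt_floor_add_one s.im
        have h9 : ((⌊s.im⌋ : ℤ) : ℝ) = k := by exact_mod_cast hs.2
        rw [h9] at h7 h8
        rw [abs_le]
        constructor <;> linarith)
      refine h6.trans ?_
      have : 0 < (k : ℝ) := by linarith
      gcongr
      linarith
    · rw [Finset.not_nonempty_iff_eq_empty] at hne
      rw [hne, Finset.sum_empty]
      positivity
  refine (Finset.sum_le_sum h2).trans ?_
  rw [Finset.sum_const, nsmul_eq_mul]
  have h10 : ((Finset.Icc ⌊c - L⌋ ⌊c + L⌋).card : ℝ) ≤ 2 * (L + 1) := by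
    rw [Int.card_Icc]
    have h11 := Int.sub_one_lt_floor (c - L)
    have h12 := Int.floor_le (c + L)
    have h13 : ⌊c - L⌋ ≤ ⌊c + L⌋ := Int.floor_le_floor (by linarith)
    have h14 : (((⌊c + L⌋ + 1 - ⌊c - L⌋).toNat : ℤ) : ℝ) = ((⌊c + L⌋ + 1 - ⌊c - L⌋ : ℤ) : ℝ) := by
      rw [Int.toNat_of_nonneg (by omega)]
    have h15 : (((⌊c + L⌋ + 1 - ⌊c - L⌋).toNat : ℕ) : ℝ) = ((⌊c + L⌋ + 1 - ⌊c - L⌋ : ℤ) : ℝ) := by
      rw [← h14]; norm_cast
    rw [h15]
    push_cast
    linarith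
  calc ((Finset.Icc ⌊c - L⌋ ⌊c + L⌋).card : ℝ) * (C * Real.log b)
      ≤ (2 * (L + 1)) * (C * Real.log b) := by gcongr
    _ = _ := by ring

/-- the comparison of the numbers of zeros -/
theorem compare (m n : ℕ) (ε : ℝ) (hε : 0 < ε) : ∃ C T0 : ℝ, 0 < C ∧ 3 ≤ T0 ∧
    ∀ σ a b : ℝ, 1 / 2 + ε ≤ σ → T0 ≤ a →
      (num m (Zr m σ a b) : ℝ) ≤ C * Real.log b ^ 2 *
        num n (Zr n (σ - ε) (max 0 (a - C * Real.log b)) (b + C * Real.log b)) := by
  classical
  obtain ⟨K, T1, h1⟩ := Pool.Agent.W186.DX.main.1 m n (ε / 2) (by linarith)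
  obtain ⟨C, T2, hC, hT2, h2⟩ := window m
  obtain ⟨K', hK'⟩ : ∃ K' : ℝ, K' = |K| + 1 := ⟨_, rfl⟩
  have hK0 : K < K' := by rw [hK']; have := le_abs_self K; linarith
  have hK1 : 1 ≤ K' := by rw [hK']; have := abs_nonneg K; linarith
  obtain ⟨T3, hT3⟩ : ∃ T3 : ℝ, ∀ t : ℝ, T3 ≤ t → K' * Real.log t ≤ t / 2 := by
    have hlim := (Real.isLittleO_log_id_atTop).bound (c := 1 / (2 * K')) (by positivity)
    obtain ⟨t3, ht3⟩ := Filter.eventually_atTop.1 hlim
    refine ⟨max t3 1, fun t ht => ?_⟩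
    have b1 := ht3 t ((le_max_left _ _).trans ht)
    have b2 : 1 ≤ t := (le_max_right _ _).trans ht
    rw [Real.norm_of_nonneg (Real.log_nonneg b2), id, Real.norm_of_nonneg (by linarith)] at b1
    calc K' * Real.log t ≤ K' * (1 / (2 * K') * t) := by gcongr
      _ = t / 2 := by field_simp
  refine ⟨C * (K' + 1) + K', max (max T1 T2) T3, by positivity,
    hT2.trans ((le_max_right _ _).trans (le_max_left _ _)), ?_⟩
  intro σ a b hσ ha
  have ha1 : T1 ≤ a := ((le_max_left _ _).trans (le_max_left _ _)).trans ha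
  have ha2 : T2 ≤ a := ((le_max_right _ _).trans (le_max_left _ _)).trans ha
  have ha3 : T3 ≤ a := (le_max_right _ _).trans ha
  have ha0 : 3 ≤ a := by linarith
  rcases lt_or_ge b a with hba | hba
  · have h5 : Zr m σ a b = ∅ := by
      rw [Set.eq_empty_iff_forall_notMem]
      rintro s ⟨-, -, h6, h7⟩
      linarith
    have h6 : (num m ∅ : ℝ) = 0 := by
      unfold num
      simp
    rw [h5, h6]
    positivity
  have hlog1 : 1 ≤ Real.log b := by
    rw [Real.le_log_iff_exp_le (by linarith)]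
    have := Real.exp_one_lt_d9
    linarith
  obtain ⟨Q, hQ⟩ : ∃ Q : ℝ, Q = C * (K' + 1) + K' := ⟨_, rfl⟩
  rw [← hQ]
  have hQ0 : 0 ≤ C * (K' + 1) := by positivity
  have hQK : K' ≤ Q := by linarith
  have hQ1 : 0 ≤ Q := by linarith
  have hfA := Zr_fin m σ a b
  have hfB := Zr_fin n (σ - ε) (max 0 (a - Q * Real.log b)) (b + Q * Real.log b)
  -- choice of the companion
  have hch : ∀ s ∈ hfA.toFinset, ∃ s' ∈ hfB.toFinset, |s.im - s'.im| ≤ K' * Real.log b := by
    intro s hs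
    rw [Set.Finite.mem_toFinset] at hs
    obtain ⟨b1, b2, b3, b4⟩ := hs
    have hsim : 0 < s.im := by linarith
    obtain ⟨s', c1, c2, c3⟩ := h1 s b1 (by linarith) (by rw [abs_of_pos hsim]; linarith)
    rw [abs_of_pos hsim] at c3
    have hlogs : 0 ≤ Real.log s.im := Real.log_nonneg (by linarith)
    have hlogs2 : Real.log s.im ≤ Real.log b := Real.log_le_log hsim b4
    have c4 : |s'.im - s.im| ≤ K' * Real.log b := by
      refine c3.trans ?_
      calc K * Real.log s.im ≤ K' * Real.log s.im := by gcongr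
        _ ≤ K' * Real.log b := by gcongr
    have c5 := abs_le.1 c4
    have c6 : K' * Real.log b ≤ Q * Real.log b := by gcongr
    have c7 : K * Real.log s.im ≤ K' * Real.log s.im := by gcongr
    have c8 := hT3 s.im (by linarith)
    have c9 := abs_le.1 c3
    refine ⟨s', ?_, by rw [abs_sub_comm]; exact c4⟩
    rw [Set.Finite.mem_toFinset]
    exact ⟨c1, by linarith, max_lt (by linarith) (by linarith), by linarith⟩
  choose! f hf1 hf2 using hch
  rw [num_eq hfA, ← Finset.sum_fiberwise_of_maps_to hf1]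
  have hfib : ∀ w ∈ hfB.toFinset, ∑ s ∈ hfA.toFinset with f s = w,
      (analyticOrderNatAt (iteratedDeriv m xi) s : ℝ) ≤ Q * Real.log b ^ 2 := by
    intro w hw
    have e1 := h2 w.im (K' * Real.log b) b (by positivity) (by linarith)
      (hfA.toFinset.filter (fun s => f s = w)) (by
        intro s hs
        rw [Finset.mem_filter] at hs
        obtain ⟨d1, d2⟩ := hs
        have d3 := hf2 s d1
        rw [d2] at d3
        rw [Set.Finite.mem_toFinset] at d1
        obtain ⟨d7, -, d4, d5⟩ := d1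
        exact ⟨d3, by linarith, d5, d7⟩)
    refine e1.trans ?_
    have e2 : C * (K' * Real.log b + 1) * Real.log b ≤ C * (K' * Real.log b + Real.log b) * Real.log b := by
      gcongr
    have e3 : C * (K' * Real.log b + Real.log b) * Real.log b = C * (K' + 1) * Real.log b ^ 2 := by ring
    have e4 : C * (K' + 1) * Real.log b ^ 2 ≤ Q * Real.log b ^ 2 := by
      gcongr
      linarith
    linarith
  refine (Finset.sum_le_sum hfib).trans ?_
  rw [Finset.sum_const, nsmul_eq_mul, mul_comm]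
  have hcard : (hfB.toFinset.card : ℝ) ≤
      num n (Zr n (σ - ε) (max 0 (a - Q * Real.log b)) (b + Q * Real.log b)) := by
    rw [num_eq hfB]
    calc (hfB.toFinset.card : ℝ) = ∑ s ∈ hfB.toFinset, (1 : ℝ) := by simp
      _ ≤ _ := Finset.sum_le_sum fun s hs => by
        rw [order_eq]
        rw [Set.Finite.mem_toFinset] at hs
        exact_mod_cast one_le_order ((zero_iff n s).1 hs.1)
  gcongr

end Pool.Agent.R305.DH
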