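import Pool.Agent.R305.DH.A

set_option autoImplicit false

/-! # The density hypothesis for the derivatives of xi -/

namespace Pool.Agent.R305.DH

open Complex Filter Topology Set
open Pool.Agent.H986R2.K4 (xi)
open Pool.Agent.W186.SD.Cnt (num order_eq one_le_order num_eq num_mono)

/-- the number of zeros of the `n`-th derivative of `ξ` with real part at least `σ` and imaginary part
in `(0, T]` -/
noncomputable def N (n : ℕ) (σ T : ℝ) : ℕ := num n (Zr n σ 0 T)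

/-- the density exponent `a` for the zeros of the `n`-th derivative of `ξ` -/
def Dens (n : ℕ) (a : ℝ → ℝ) : Prop := ∀ ε : ℝ, 0 < ε → ∃ C T₀ : ℝ, ∀ T : ℝ, T₀ ≤ T → ∀ σ : ℝ,
  1 / 2 ≤ σ → σ ≤ 1 → (N n σ T : ℝ) ≤ C * T ^ (a σ + ε)

theorem num_union_le {n : ℕ} {A B : Set ℂ} (hA : A.Finite) (hB : B.Finite) :
    (num n (A ∪ B) : ℝ) ≤ num n A + num n B := by
  classical
  rw [num_eq (hA.union hB), num_eq hA, num_eq hB, Set.Finite.toFinset_union hA hB,
    ← Finset.sum_union_inter]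
  have : (0 : ℝ) ≤ ∑ s ∈ hA.toFinset ∩ hB.toFinset, (analyticOrderNatAt (iteratedDeriv n xi) s : ℝ) :=
    Finset.sum_nonneg fun _ _ => Nat.cast_nonneg _
  linarith

/-- splitting at the height `c` -/
theorem split (n : ℕ) (σ σ' a b c : ℝ) (hσ : σ' ≤ σ) :
    (num n (Zr n σ a b) : ℝ) ≤ num n (Zr n σ' a c) + num n (Zr n σ c b) := by
  refine (num_mono ((Zr_fin n σ' a c).union (Zr_fin n σ c b)) ?_).trans
    (num_union_le (Zr_fin n σ' a c) (Zr_fin n σ c b))
  rintro s ⟨h1, h2, h3, h4⟩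
  rcases le_or_gt s.im c with h | h
  · exact Or.inl ⟨h1, hσ.trans h2, h3, h⟩
  · exact Or.inr ⟨h1, h2, h, h4⟩

theorem total (m : ℕ) : ∃ C T0 : ℝ, 0 < C ∧ 3 ≤ T0 ∧ ∀ T : ℝ, T0 ≤ T → ∀ σ : ℝ, 1 / 2 ≤ σ →
    (N m σ T : ℝ) ≤ C * T * Real.log T := by
  obtain ⟨C, T0, hC, hT0, h⟩ := window m
  obtain ⟨C1, hC1⟩ : ∃ C1 : ℝ, C1 = num m (Zr m (1 / 2) 0 T0) := ⟨_, rfl⟩
  have hC10 : 0 ≤ C1 := by rw [hC1]; exact Nat.cast_nonneg _
  refine ⟨C1 + 2 * C, T0, by positivity, hT0, ?_⟩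
  intro T hT σ hσ
  have hlog1 : 1 ≤ Real.log T := by
    rw [Real.le_log_iff_exp_le (by linarith)]
    have := Real.exp_one_lt_d9
    linarith
  have h1 := split m σ (1 / 2) 0 T T0 hσ
  have h2 : (num m (Zr m σ T0 T) : ℝ) ≤ C * (T + 1) * Real.log T := by
    rw [num_eq (Zr_fin m σ T0 T)]
    refine h 0 T T (by linarith) hT _ ?_
    intro s hs
    rw [Set.Finite.mem_toFinset] at hs
    obtain ⟨a1, a2, a3, a4⟩ := hs
    refine ⟨?_, a3.le, a4, a1⟩
    rw [sub_zero, abs_le]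
    constructor <;> linarith
  rw [← hC1] at h1
  unfold N
  have h3 : C1 ≤ C1 * T * Real.log T := by
    have : 1 ≤ T * Real.log T := by nlinarith
    nlinarith
  have h4 : C * (T + 1) * Real.log T ≤ C * (2 * T) * Real.log T := by
    gcongr
    linarith
  nlinarith

theorem N_mono (n : ℕ) {σ σ' T T' : ℝ} (hσ : σ' ≤ σ) (hT : T ≤ T') : (N n σ T : ℝ) ≤ N n σ' T' := by
  unfold N
  refine num_mono (Zr_fin n σ' 0 T') ?_
  rintro s ⟨h1, h2, h3, h4⟩
  exact ⟨h1, hσ.trans h2, h3, h4.trans hT⟩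

theorem compareN (m n : ℕ) (ε : ℝ) (hε : 0 < ε) : ∃ C T0 : ℝ, 0 < C ∧ 3 ≤ T0 ∧
    ∀ T σ : ℝ, T0 ≤ T → 1 / 2 + ε ≤ σ →
      (N m σ T : ℝ) ≤ C + C * Real.log T ^ 2 * N n (σ - ε) (T + C * Real.log T) := by
  obtain ⟨C, T0, hC, hT0, h⟩ := compare m n ε hε
  obtain ⟨C1, hC1⟩ : ∃ C1 : ℝ, C1 = num m (Zr m (1 / 2) 0 T0) := ⟨_, rfl⟩
  have hC10 : 0 ≤ C1 := by rw [hC1]; exact Nat.cast_nonneg _
  refine ⟨C + C1, T0, by positivity, hT0, ?_⟩
  intro T σ hT hσ
  have h1 := split m σ (1 / 2) 0 T T0 (by linarith)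
  have h2 := h σ T0 T hσ le_rfl
  rw [← hC1] at h1
  have hlog0 : 0 ≤ Real.log T := Real.log_nonneg (by linarith)
  have h3 : (num n (Zr n (σ - ε) (max 0 (T0 - C * Real.log T)) (T + C * Real.log T)) : ℝ) ≤
      N n (σ - ε) (T + (C + C1) * Real.log T) := by
    unfold N
    refine num_mono (Zr_fin _ _ _ _) ?_
    rintro s ⟨a1, a2, a3, a4⟩
    refine ⟨a1, a2, (le_max_left _ _).trans_lt a3, a4.trans ?_⟩
    have : 0 ≤ C1 * Real.log T := by positivity
    linarith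
  unfold N at h3 ⊢
  have h4 : C * Real.log T ^ 2 *
      num n (Zr n (σ - ε) (max 0 (T0 - C * Real.log T)) (T + C * Real.log T)) ≤
      (C + C1) * Real.log T ^ 2 * num n (Zr n (σ - ε) 0 (T + (C + C1) * Real.log T)) := by
    gcongr
    linarith
  linarith

theorem log_pow_le (ε : ℝ) (hε : 0 < ε) : ∃ T0 : ℝ, 3 ≤ T0 ∧ ∀ T : ℝ, T0 ≤ T →
    Real.log T ^ 2 ≤ T ^ ε := by
  have h1 : (fun x : ℝ => Real.log x) =o[atTop] fun x => x ^ (ε / 2) :=
    isLittleO_log_rpow_atTop (by linarith)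
  obtain ⟨T1, h2⟩ := Filter.eventually_atTop.1 (h1.bound (c := 1) one_pos)
  refine ⟨max T1 3, le_max_right _ _, fun T hT => ?_⟩
  have a1 := h2 T ((le_max_left _ _).trans hT)
  have a2 : 3 ≤ T := (le_max_right _ _).trans hT
  have a3 : 0 ≤ Real.log T := Real.log_nonneg (by linarith)
  rw [Real.norm_of_nonneg a3, Real.norm_of_nonneg (by positivity), one_mul] at a1
  calc Real.log T ^ 2 ≤ (T ^ (ε / 2)) ^ 2 := by gcongr
    _ = T ^ ε := by
      rw [← Real.rpow_natCast, ← Real.rpow_mul (by linarith)]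
      congr 1
      push_cast
      ring

theorem transfer (m n : ℕ) (a : ℝ → ℝ) (ha : ContinuousOn a (Icc (1 / 2) 1)) (ha1 : 1 ≤ a (1 / 2))
    (ha0 : ∀ σ ∈ Icc (1 / 2 : ℝ) 1, 0 ≤ a σ) (h : Dens n a) : Dens m a := by
  intro ε hε
  have huc := isCompact_Icc.uniformContinuousOn_of_continuous ha
  rw [Metric.uniformContinuousOn_iff] at huc
  obtain ⟨δ, hδ, hδ2⟩ := huc (ε / 8) (by linarith)
  obtain ⟨A, hA⟩ := isCompact_Icc.exists_bound_of_continuousOn ha
  have hA' : ∀ σ ∈ Icc (1 / 2 : ℝ) 1, a σ ≤ A := fun σ hσ => (le_abs_self _).trans (hA σ hσ)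
  have hAnn : 0 ≤ A := (norm_nonneg _).trans (hA (1 / 2) (by constructor <;> norm_num))
  obtain ⟨C1, T1, hC1, hT1, h1⟩ := compareN m n (δ / 2) (by linarith)
  obtain ⟨C2, T2, hC2, hT2, h2⟩ := total m
  obtain ⟨C3, T3, h3⟩ := h (ε / 8) (by linarith)
  obtain ⟨T4, hT4, h4⟩ := log_pow_le (ε / 4) (by linarith)
  obtain ⟨T5, h5⟩ : ∃ T5 : ℝ, ∀ T : ℝ, T5 ≤ T → C1 * Real.log T ≤ T := by
    have hlim := (Real.isLittleO_log_id_atTop).bound (c := 1 / C1) (by positivity)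
    obtain ⟨t3, ht3⟩ := Filter.eventually_atTop.1 hlim
    refine ⟨max t3 1, fun t ht => ?_⟩
    have b1 := ht3 t ((le_max_left _ _).trans ht)
    have b2 : 1 ≤ t := (le_max_right _ _).trans ht
    rw [Real.norm_of_nonneg (Real.log_nonneg b2), id, Real.norm_of_nonneg (by linarith)] at b1
    calc C1 * Real.log t ≤ C1 * (1 / C1 * t) := by gcongr
      _ = t := by field_simp
  refine ⟨C1 + C1 * (|C3| * 2 ^ (A + ε)) + C2, max (max T1 T2) (max (max T3 T4) T5), ?_⟩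
  intro T hT σ hσ hσ1
  have g1 : T1 ≤ T := ((le_max_left _ _).trans (le_max_left _ _)).trans hT
  have g2 : T2 ≤ T := ((le_max_right _ _).trans (le_max_left _ _)).trans hT
  have g3 : T3 ≤ T := ((le_max_left _ _).trans ((le_max_left _ _).trans (le_max_right _ _))).trans hT
  have g4 : T4 ≤ T := ((le_max_right _ _).trans ((le_max_left _ _).trans (le_max_right _ _))).trans hT
  have g5 : T5 ≤ T := ((le_max_right _ _).trans (le_max_right _ _)).trans hT
  have hT3' : 3 ≤ T := hT1.trans g1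
  have hTpos : 0 < T := by linarith
  have hlog0 : 0 ≤ Real.log T := Real.log_nonneg (by linarith)
  have hlog1 : 1 ≤ Real.log T := by
    rw [Real.le_log_iff_exp_le (by linarith)]
    have := Real.exp_one_lt_d9
    linarith
  have hσI : σ ∈ Icc (1 / 2 : ℝ) 1 := ⟨hσ, hσ1⟩
  have haσ := ha0 σ hσI
  have hp0 : 0 < T ^ (a σ + ε) := by positivity
  have hone : 1 ≤ T ^ (a σ + ε) := Real.one_le_rpow (by linarith) (by linarith)
  have hB : 0 ≤ C1 * (|C3| * 2 ^ (A + ε)) := by positivity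
  rcases lt_or_ge σ (1 / 2 + δ / 2) with hc | hc
  · have e1 := h2 T g2 σ hσ
    have e2 : Real.log T ≤ Real.log T ^ 2 := by nlinarith
    have e3 := h4 T g4
    have e4 : dist (a σ) (a (1 / 2)) < ε / 8 := by
      apply hδ2 σ hσI (1 / 2) ⟨le_rfl, by norm_num⟩
      rw [Real.dist_eq, abs_of_nonneg (by linarith)]
      linarith
    rw [Real.dist_eq] at e4
    have e5 := (abs_lt.1 e4).1
    have e6 : T * T ^ (ε / 4) ≤ T ^ (a σ + ε) := by
      have : T * T ^ (ε / 4) = T ^ (1 + ε / 4) := by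
        rw [Real.rpow_add hTpos, Real.rpow_one]
      rw [this]
      exact Real.rpow_le_rpow_of_exponent_le (by linarith) (by linarith)
    calc (N m σ T : ℝ) ≤ C2 * T * Real.log T := e1
      _ = C2 * (T * Real.log T) := by ring
      _ ≤ C2 * (T * T ^ (ε / 4)) := by gcongr; linarith
      _ ≤ C2 * T ^ (a σ + ε) := by gcongr
      _ ≤ (C1 + C1 * (|C3| * 2 ^ (A + ε)) + C2) * T ^ (a σ + ε) := by
        gcongr
        linarith
  · have e1 := h1 T σ g1 hc
    have e5 := h5 T g5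
    have hσ' : σ - δ / 2 ∈ Icc (1 / 2 : ℝ) 1 := ⟨by linarith, by linarith⟩
    have e2 := h3 (2 * T) (by linarith) (σ - δ / 2) hσ'.1 hσ'.2
    have e3 := N_mono n (le_refl (σ - δ / 2)) (show T + C1 * Real.log T ≤ 2 * T by linarith)
    have e4 : dist (a (σ - δ / 2)) (a σ) < ε / 8 := by
      apply hδ2 _ hσ' σ hσI
      rw [Real.dist_eq, abs_sub_comm, abs_of_nonneg (by linarith)]
      linarith
    rw [Real.dist_eq] at e4
    have e6 := (abs_lt.1 e4).2
    have e7 : (N n (σ - δ / 2) (2 * T) : ℝ) ≤ |C3| * 2 ^ (A + ε) * T ^ (a σ + ε / 4) := by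
      refine e2.trans ?_
      rw [Real.mul_rpow (by norm_num) hTpos.le]
      calc C3 * (2 ^ (a (σ - δ / 2) + ε / 8) * T ^ (a (σ - δ / 2) + ε / 8))
          ≤ |C3| * (2 ^ (a (σ - δ / 2) + ε / 8) * T ^ (a (σ - δ / 2) + ε / 8)) := by
            gcongr
            exact le_abs_self _
        _ ≤ |C3| * (2 ^ (A + ε) * T ^ (a σ + ε / 4)) := by
            have q1 : (2 : ℝ) ^ (a (σ - δ / 2) + ε / 8) ≤ 2 ^ (A + ε) :=
              Real.rpow_le_rpow_of_exponent_le (by norm_num) (by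
                have := hA' _ hσ'
                linarith)
            have q2 : T ^ (a (σ - δ / 2) + ε / 8) ≤ T ^ (a σ + ε / 4) :=
              Real.rpow_le_rpow_of_exponent_le (by linarith) (by linarith)
            gcongr
        _ = _ := by ring
    have e8 := h4 T g4
    calc (N m σ T : ℝ) ≤ C1 + C1 * Real.log T ^ 2 * N n (σ - δ / 2) (T + C1 * Real.log T) := e1
      _ ≤ C1 * T ^ (a σ + ε) + C1 * T ^ (ε / 4) * (|C3| * 2 ^ (A + ε) * T ^ (a σ + ε / 4)) := by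
        have w1 : C1 ≤ C1 * T ^ (a σ + ε) := by nlinarith
        have w2 : (N n (σ - δ / 2) (T + C1 * Real.log T) : ℝ) ≤ |C3| * 2 ^ (A + ε) * T ^ (a σ + ε / 4) :=
          e3.trans e7
        gcongr
      _ = C1 * T ^ (a σ + ε) + C1 * (|C3| * 2 ^ (A + ε)) * (T ^ (ε / 4) * T ^ (a σ + ε / 4)) := by ring
      _ ≤ C1 * T ^ (a σ + ε) + C1 * (|C3| * 2 ^ (A + ε)) * T ^ (a σ + ε) := by
        rw [← Real.rpow_add hTpos]
        have w3 : T ^ (ε / 4 + (a σ + ε / 4)) ≤ T ^ (a σ + ε) :=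
          Real.rpow_le_rpow_of_exponent_le (by linarith) (by linarith)
        gcongr
      _ ≤ (C1 + C1 * (|C3| * 2 ^ (A + ε)) + C2) * T ^ (a σ + ε) := by
        have : 0 ≤ C2 * T ^ (a σ + ε) := by positivity
        nlinarith

/-! ## zeta -/

/-- the number of zeros of zeta with real part at least `σ` and imaginary part in `(0, T]`, with
multiplicity -/
noncomputable def Nz (σ T : ℝ) : ℕ :=
  ∑ᶠ s ∈ {s : ℂ | riemannZeta s = 0 ∧ σ ≤ s.re ∧ 0 < s.im ∧ s.im ≤ T}, analyticOrderNatAt riemannZeta s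

theorem order_zeta {s : ℂ} (hs : 0 < s.re) (him : 0 < s.im) :
    analyticOrderNatAt (iteratedDeriv 0 xi) s = analyticOrderNatAt riemannZeta s := by
  have hs0 : s ≠ 0 := by
    rintro rfl
    simp at hs
  have hs1 : s ≠ 1 := by
    rintro rfl
    simp at him
  rw [iteratedDeriv_zero]
  set h : ℂ → ℂ := fun w => 2 / (w * (w - 1)) * (Gammaℝ w)⁻¹ with hh
  have hxi : AnalyticAt ℂ xi s := by
    have hd : Differentiable ℂ (iteratedDeriv 0 Pool.Agent.H24R2.JP.XX) :=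
      Pool.Agent.W605.SD.iter_diff Pool.Agent.W605.SD.XX_diff' 0
    have h1 : xi = (fun _ => (1 / 8 : ℂ)) * (iteratedDeriv 0 Pool.Agent.H24R2.JP.XX ∘ fun s => s - 1 / 2) := by
      funext s
      have := Pool.Agent.H986R2.K4.XiAux.iter 0 s
      rw [iteratedDeriv_zero] at this
      rw [this]
      rfl
    rw [h1]
    exact analyticAt_const.mul ((hd.analyticAt _).comp (by fun_prop))
  have hw : s * (s - 1) ≠ 0 := mul_ne_zero hs0 (sub_ne_zero.2 hs1)
  have hha : AnalyticAt ℂ h s := by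
    have h1 : AnalyticAt ℂ (fun w : ℂ => (Gammaℝ w)⁻¹) s := differentiable_Gammaℝ_inv.analyticAt s
    have h2 : AnalyticAt ℂ (fun w : ℂ => 2 / (w * (w - 1))) s := by
      have q1 : AnalyticAt ℂ (fun _ : ℂ => (2 : ℂ)) s := analyticAt_const
      have q2 : AnalyticAt ℂ (fun w : ℂ => w * (w - 1)) s := by fun_prop
      exact q1.div q2 hw
    exact h2.mul h1
  have hhn : h s ≠ 0 := by
    rw [hh]
    exact mul_ne_zero (div_ne_zero two_ne_zero hw) (inv_ne_zero (Gammaℝ_ne_zero_of_re_pos hs))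
  have hev : riemannZeta =ᶠ[𝓝 s] h * xi := by
    have ho : IsOpen {w : ℂ | 0 < w.re ∧ w ≠ 1} := by
      apply IsOpen.inter (isOpen_lt continuous_const Complex.continuous_re) isOpen_ne
    filter_upwards [ho.mem_nhds ⟨hs, hs1⟩] with w hw
    obtain ⟨w1, w2⟩ := hw
    have w0 : w ≠ 0 := by
      rintro rfl
      simp at w1
    have hG : Gammaℝ w ≠ 0 := Gammaℝ_ne_zero_of_re_pos w1
    have e1 : xi w = w * (w - 1) / 2 * completedRiemannZeta w := by
      unfold Pool.Agent.H986R2.K4.xi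
      rw [completedRiemannZeta_eq]
      have h2 : (1 - w) ≠ 0 := sub_ne_zero.2 (Ne.symm w2)
      field_simp
      ring
    rw [Pi.mul_apply, riemannZeta_def_of_ne_zero w0, e1, hh]
    have h3 : w - 1 ≠ 0 := sub_ne_zero.2 w2
    field_simp
  have h4 : analyticOrderAt riemannZeta s = analyticOrderAt xi s := by
    rw [analyticOrderAt_congr hev, analyticOrderAt_mul hha hxi, hha.analyticOrderAt_eq_zero.2 hhn, zero_add]
  unfold analyticOrderNatAt
  rw [h4]

theorem Nz_eq (σ T : ℝ) (hσ : 0 < σ) : Nz σ T = N 0 σ T := by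
  unfold Nz N num
  have hset : {s : ℂ | riemannZeta s = 0 ∧ σ ≤ s.re ∧ 0 < s.im ∧ s.im ≤ T} = Zr 0 σ 0 T := by
    ext s
    constructor
    · rintro ⟨h1, h2, h3, h4⟩
      refine ⟨?_, h2, h3, h4⟩
      rw [iteratedDeriv_zero]
      exact (Pool.Agent.W186.DX.xi_zero (by linarith)).2 h1
    · rintro ⟨h1, h2, h3, h4⟩
      rw [iteratedDeriv_zero] at h1
      exact ⟨(Pool.Agent.W186.DX.xi_zero (by linarith)).1 h1, h2, h3, h4⟩
  rw [hset]
  apply finsum_mem_congr rfl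
  rintro s ⟨-, h2, h3, -⟩
  exact (order_zeta (by linarith) h3).symm

end Pool.Agent.R305.DH
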